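import Pool.Agent.Helper82.PN.Goals
import Mathlib

/-!
# Project PN (MP_6fb600_gt), packet NEARI: nearby bodies contain and are contained in homothetic copies
-/

set_option autoImplicit false

open MeasureTheory Set
open Pool.Agent.Helper47.AQ

noncomputable section

namespace Pool.Agent.Helper45.PN

open Pool.Agent.Helper82.PN

theorem gNEARI : NEARI := by
  intro ι _ K c hK hc δ hδ hδ1
  obtain ⟨r', hr', hball'⟩ := Metric.mem_nhds_iff.1 (mem_interior_iff_mem_nhds.1 hc)
  obtain ⟨r, hr, hball⟩ : ∃ r : ℝ, 0 < r ∧ Metric.closedBall c (2 * r) ⊆ K := by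
    refine ⟨r' / 4, by linarith, fun x hx => hball' ?_⟩
    rw [Metric.mem_closedBall] at hx
    rw [Metric.mem_ball]
    linarith
  have hcv : ∀ w : ι → ℝ, ‖w‖ ≤ 2 * r → c + w ∈ K := by
    intro w hw
    refine hball ?_
    rw [Metric.mem_closedBall, dist_eq_norm, add_sub_cancel_left]
    exact hw
  refine ⟨r * δ, mul_pos hr hδ, ?_⟩
  intro K' hK'c hK'cl hnear
  constructor
  · intro x hx
    by_contra hz
    set z := c + (1 - δ) • (x - c) with hzdef
    have hzK : ∀ u : ι → ℝ, ‖u‖ ≤ 1 → z + (2 * r * δ) • u ∈ K := by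
      intro u hu
      have h1 : c + (2 * r) • u ∈ K := by
        refine hcv _ ?_
        rw [norm_smul, Real.norm_eq_abs, abs_of_pos (by linarith)]
        nlinarith
      have h2 := hK.conv hx h1 (by linarith : (0 : ℝ) ≤ 1 - δ) hδ.le (by ring)
      have h3 : z + (2 * r * δ) • u = (1 - δ) • x + δ • (c + (2 * r) • u) := by
        rw [hzdef]
        funext i
        simp only [Pi.add_apply, Pi.smul_apply, Pi.sub_apply, smul_eq_mul]
        ring
      rw [h3]
      exact h2
    obtain ⟨f, b, h1, h2⟩ := geometric_hahn_banach_closed_point hK'c hK'cl hz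
    obtain ⟨y0, hy0, _⟩ := hnear.1 x hx
    have hf : 0 < ‖f‖ := by
      rw [norm_pos_iff]
      intro h
      have h3 := h1 y0 hy0
      rw [h] at h2 h3
      simp at h2 h3
      linarith
    obtain ⟨u0, hu0, hu1⟩ := f.exists_lt_apply_of_lt_opNorm (r := ‖f‖ / 2) (by linarith)
    obtain ⟨u, hu, hfu⟩ : ∃ u : ι → ℝ, ‖u‖ ≤ 1 ∧ ‖f‖ / 2 < f u := by
      rw [Real.norm_eq_abs] at hu1
      rcases le_total 0 (f u0) with h | h
      · rw [abs_of_nonneg h] at hu1
        exact ⟨u0, hu0.le, hu1⟩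
      · rw [abs_of_nonpos h] at hu1
        refine ⟨-u0, by rw [norm_neg]; exact hu0.le, ?_⟩
        rw [map_neg]
        exact hu1
    obtain ⟨y, hy, hy2⟩ := hnear.1 _ (hzK u hu)
    have h4 : f (z + (2 * r * δ) • u - y) ≤ ‖f‖ * (r * δ) := by
      refine (le_abs_self _).trans ?_
      rw [← Real.norm_eq_abs]
      exact (f.le_opNorm _).trans (mul_le_mul_of_nonneg_left hy2 hf.le)
    rw [map_sub, map_add, map_smul, smul_eq_mul] at h4
    have h5 := h1 y hy
    have h6 : 2 * r * δ * (‖f‖ / 2) < 2 * r * δ * f u := by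
      have : 0 < 2 * r * δ := by positivity
      exact mul_lt_mul_of_pos_left hfu this
    nlinarith
  · intro y hy
    obtain ⟨x', hx', hx2⟩ := hnear.2 y hy
    have h1 : c + (1 / δ) • (y - x') ∈ K := by
      refine hcv _ ?_
      rw [norm_smul, Real.norm_eq_abs, abs_of_pos (by positivity), ← norm_neg, neg_sub]
      rw [div_mul_eq_mul_div, one_mul, div_le_iff₀ hδ]
      nlinarith
    have h2 : (0 : ℝ) < 1 + δ := by linarith
    have h3 := hK.conv hx' h1 (by positivity : (0 : ℝ) ≤ 1 / (1 + δ))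
      (by positivity : (0 : ℝ) ≤ δ / (1 + δ)) (by field_simp)
    refine ⟨_, h3, ?_⟩
    funext i
    simp only [Pi.add_apply, Pi.smul_apply, Pi.sub_apply, smul_eq_mul]
    field_simp
    ring

end Pool.Agent.Helper45.PN
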