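import Pool.Agent.Helper82.PN.Goals
import Mathlib

/-!
# Project PN (MP_6fb600_gt), packet PYRA: pyramids are joins with a point
-/

set_option autoImplicit false

open MeasureTheory Set
open Pool.Agent.Helper47.AQ

noncomputable section

namespace Pool.Agent.Helper45.PN

open Pool.Agent.Helper82.PN

section

variable {ι : Type} (y : ι ⊕ Unit → ℝ)

/-- the linear part -/
def LY (hy : y (Sum.inr ()) ≠ 0) : ((ι ⊕ Empty) ⊕ Unit → ℝ) ≃ₗ[ℝ] (ι ⊕ Unit → ℝ) where
  toFun z := Sum.elim (fun i => z (Sum.inl (Sum.inl i)) - z (Sum.inr ()) * y (Sum.inl i))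
    (fun _ => -(z (Sum.inr ()) * y (Sum.inr ())))
  invFun u := Sum.elim (Sum.elim
      (fun i => u (Sum.inl i) + -(u (Sum.inr ()) / y (Sum.inr ())) * y (Sum.inl i))
      (fun e => e.elim)) (fun _ => -(u (Sum.inr ()) / y (Sum.inr ())))
  map_add' z z' := by
    funext s
    rcases s with i | _
    · show z _ + z' _ - (z _ + z' _) * _ = (z _ - z _ * _) + (z' _ - z' _ * _)
      ring
    · show -((z _ + z' _) * _) = -(z _ * _) + -(z' _ * _)
      ring
  map_smul' c z := by
    funext s
    rcases s with i | _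
    · show c * z _ - c * z _ * _ = c * (z _ - z _ * _)
      ring
    · show -(c * z _ * _) = c * -(z _ * _)
      ring
  left_inv z := by
    funext s
    rcases s with (i | e) | _
    · show z _ - z _ * y _ + -(-(z _ * y _) / y _) * y _ = z _
      rw [neg_div, neg_neg, mul_div_assoc, div_self hy, mul_one]
      ring
    · exact e.elim
    · show -(-(z _ * y _) / y _) = z _
      rw [neg_div, neg_neg, mul_div_assoc, div_self hy, mul_one]
  right_inv u := by
    funext s
    rcases s with i | _
    · show u _ + -(u _ / y _) * y _ - -(u _ / y _) * y _ = u _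
      ring
    · show -(-(u _ / y _) * y _) = u _
      rw [neg_mul, neg_neg, div_mul_cancel₀ _ hy]

end

theorem convex_lift {ι : Type} {B : Set (ι → ℝ)} (hB : Convex ℝ B) :
    Convex ℝ (lift '' B) := by
  refine hB.is_linear_image ⟨?_, ?_⟩
  · intro x x'
    funext s
    rcases s with i | _
    · rfl
    · show (0 : ℝ) = 0 + 0
      ring
  · intro c x
    funext s
    rcases s with i | _
    · rfl
    · show (0 : ℝ) = c * 0
      ring

theorem gPYRA : PYRA := by
  intro ι _ B y hB hne hy
  refine ⟨(LY y hy).toAffineEquiv.trans (AffineEquiv.constVAdd ℝ _ y), ?_⟩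
  have hform : ∀ (t : ℝ) (x : ι → ℝ) (e : Empty → ℝ),
      ((LY y hy).toAffineEquiv.trans (AffineEquiv.constVAdd ℝ _ y))
        (Sum.elim (Sum.elim (t • x) ((1 - t) • e)) (fun _ => t)) =
      (1 - t) • y + t • lift x := by
    intro t x e
    show y + LY y hy _ = _
    funext s
    rcases s with i | _
    · show y (Sum.inl i) + (t * x i - t * y (Sum.inl i)) = (1 - t) * y (Sum.inl i) + t * x i
      ring
    · show y (Sum.inr ()) + -(t * y (Sum.inr ())) = (1 - t) * y (Sum.inr ()) + t * 0
      ring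
  rw [convexHull_insert (hne.image lift), (convex_lift hB).convexHull_eq]
  ext z
  rw [mem_image, mem_convexJoin]
  constructor
  · rintro ⟨w, ⟨t, ht, x, hx, e, _, rfl⟩, rfl⟩
    refine ⟨y, rfl, lift x, ⟨x, hx, rfl⟩, 1 - t, t, by linarith [ht.2], ht.1, by ring, ?_⟩
    exact (hform t x e).symm
  · rintro ⟨y', hy', _, ⟨x, hx, rfl⟩, a, b, ha, hb, hab, rfl⟩
    rw [mem_singleton_iff] at hy'
    subst hy'
    refine ⟨_, ⟨b, ⟨hb, by linarith⟩, x, hx, fun e => e.elim, mem_univ _, rfl⟩, ?_⟩
    rw [hform, show 1 - b = a by linarith]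

end Pool.Agent.Helper45.PN
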